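import Mathlib

set_option autoImplicit false

namespace Pool.Agent.Results.MP_3eb9f6_co.AllPairs

open Finset

/-- The set `C(v)` of colours appearing among the neighbours of `v`. -/
def nbrColours {V : Type} (G : SimpleGraph V) {k : ℕ} (c : V → Fin k) (v : V) : Set (Fin k) :=
  {i | ∃ u, G.Adj v u ∧ c u = i}

/-- `c` is a neighbor-locating `k`-colouring of `G`: a proper colouring all of whose `k` colour
classes are nonempty, in which distinct vertices of the same colour have different sets of colours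
among their neighbours. -/
def IsNL {V : Type} (G : SimpleGraph V) {k : ℕ} (c : V → Fin k) : Prop :=
  (∀ u v, G.Adj u v → c u ≠ c v) ∧ Function.Surjective c ∧
    ∀ u v, u ≠ v → c u = c v → nbrColours G c u ≠ nbrColours G c v

/-- The neighbor-locating chromatic number. -/
noncomputable def chiNL {V : Type} (G : SimpleGraph V) : ℕ :=
  sInf {k | ∃ c : V → Fin k, IsNL G c}

/-- The bound `B(k, Δ)`. -/
def B (k D : ℕ) : ℕ := ∑ j ∈ Icc 1 D, k * (k - 1).choose j

section Sets

/-- The 4-set attached to a pair `a < b`. -/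
def mab (a b : ℕ) : Finset ℕ :=
  if b ≤ 4 then
    (if (a, b) = (0, 1) ∨ (a, b) = (0, 2) then {0, 1, 2, 3} else
     if (a, b) = (1, 2) ∨ (a, b) = (1, 3) then {1, 2, 3, 4} else
     if (a, b) = (2, 3) ∨ (a, b) = (2, 4) then {0, 2, 3, 4} else
     if (a, b) = (3, 4) ∨ (a, b) = (0, 3) then {0, 1, 3, 4} else {0, 1, 2, 4})
  else if a = 0 then {0, 2, 3, b} else if a = 1 then {1, 2, 3, b} else {0, 1, a, b}

/-- The five special sets. -/
def spec : Finset (Finset ℕ) :=
  {{1, 2, 3, 4}, {0, 2, 3, 4}, {0, 1, 3, 4}, {0, 1, 2, 4}, {0, 1, 2, 3}}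

lemma mab_small : ∀ b ≤ 4, ∀ a < b, mab a b ∈ spec ∧ (mab a b).card = 4 ∧ a ∈ mab a b ∧
    b ∈ mab a b ∧ ∀ x ∈ mab a b, x ≤ 4 := by
  intro b hb a ha
  interval_cases b <;> interval_cases a <;> decide

lemma mab_big {a b : ℕ} (_ : a < b) (hb : ¬ b ≤ 4) :
    mab a b = if a = 0 then {0, 2, 3, b} else if a = 1 then {1, 2, 3, b} else {0, 1, a, b} := by
  unfold mab
  rw [if_neg hb]

lemma mab_card {a b : ℕ} (h : a < b) : (mab a b).card = 4 := by
  by_cases hb : b ≤ 4
  · exact (mab_small b hb a h).2.1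
  · rw [mab_big h hb]
    split_ifs with h0 h1
    · rw [card_insert_of_notMem, card_insert_of_notMem, card_pair]
      · omega
      · simp; omega
      · simp; omega
    · rw [card_insert_of_notMem, card_insert_of_notMem, card_pair]
      · omega
      · simp; omega
      · simp; omega
    · rw [card_insert_of_notMem, card_insert_of_notMem, card_pair]
      · omega
      · simp; omega
      · simp; omega

lemma mab_left {a b : ℕ} (h : a < b) : a ∈ mab a b := by
  by_cases hb : b ≤ 4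
  · exact (mab_small b hb a h).2.2.1
  · rw [mab_big h hb]
    split_ifs with h0 h1
    · simp [h0]
    · simp [h1]
    · simp

lemma mab_right {a b : ℕ} (h : a < b) : b ∈ mab a b := by
  by_cases hb : b ≤ 4
  · exact (mab_small b hb a h).2.2.2.1
  · rw [mab_big h hb]
    split_ifs with h0 h1 <;> simp

lemma mab_le {a b : ℕ} (h : a < b) : ∀ x ∈ mab a b, x ≤ max 4 b := by
  by_cases hb : b ≤ 4
  · intro x hx
    exact le_max_of_le_left ((mab_small b hb a h).2.2.2.2 x hx)
  · rw [mab_big h hb]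
    intro x hx
    split_ifs at hx with h0 h1 <;> simp at hx <;> omega

lemma mab_not_spec {a b : ℕ} (h : a < b) (hs : mab a b ∉ spec) : 5 ≤ b := by
  by_contra hb
  exact hs (mab_small b (by omega) a h).1

lemma mab_inj {a b a' b' : ℕ} (h : a < b) (h' : a' < b') (hb : 5 ≤ b) (hb' : 5 ≤ b')
    (heq : mab a b = mab a' b') : a = a' ∧ b = b' := by
  have e1 : b = b' := by
    have h1 := mab_le h' b (by rw [← heq]; exact mab_right h)
    have h2 := mab_le h b' (by rw [heq]; exact mab_right h')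
    omega
  subst e1
  refine ⟨?_, rfl⟩
  rw [mab_big h (by omega), mab_big h' (by omega)] at heq
  split_ifs at heq with h0 h1 h2 h3 h4 h5 h6
  · omega
  · have : (0 : ℕ) ∈ ({1, 2, 3, b} : Finset ℕ) := by rw [← heq]; simp
    simp at this; omega
  · have : (1 : ℕ) ∈ ({0, 2, 3, b} : Finset ℕ) := by rw [heq]; simp
    simp at this; omega
  · have : (0 : ℕ) ∈ ({1, 2, 3, b} : Finset ℕ) := by rw [heq]; simp
    simp at this; omega
  · omega
  · have : (0 : ℕ) ∈ ({1, 2, 3, b} : Finset ℕ) := by rw [heq]; simp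
    simp at this; omega
  · have : (1 : ℕ) ∈ ({0, 2, 3, b} : Finset ℕ) := by rw [← heq]; simp
    simp at this; omega
  · have : (0 : ℕ) ∈ ({1, 2, 3, b} : Finset ℕ) := by rw [← heq]; simp
    simp at this; omega
  · have : a ∈ ({0, 1, a', b} : Finset ℕ) := by rw [← heq]; simp
    simp at this; omega

open Classical in
/-- The pair attached to a set with at least three elements. -/
noncomputable def e (M : Finset ℕ) : ℕ × ℕ :=
  if M = {0, 2, 3, 4} then (3, 4) else if M = {0, 1, 3, 4} then (0, 4) else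
  if M = {0, 1, 2, 4} then (0, 1) else if M = {0, 1, 2, 3} then (1, 2) else
  if M = {1, 2, 3, 4} then (2, 3) else
  if h : ∃ p : ℕ × ℕ, p.1 ∈ M ∧ p.2 ∈ M ∧ p.1 < p.2 ∧ ∃ c ∈ M, p.2 < c then h.choose else (0, 0)

lemma e_0234 : e {0, 2, 3, 4} = (3, 4) := by unfold e; rw [if_pos rfl]
lemma e_0134 : e {0, 1, 3, 4} = (0, 4) := by
  unfold e; rw [if_neg (by decide), if_pos rfl]
lemma e_0124 : e {0, 1, 2, 4} = (0, 1) := by
  unfold e; rw [if_neg (by decide), if_neg (by decide), if_pos rfl]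
lemma e_0123 : e {0, 1, 2, 3} = (1, 2) := by
  unfold e; rw [if_neg (by decide), if_neg (by decide), if_neg (by decide), if_pos rfl]
lemma e_1234 : e {1, 2, 3, 4} = (2, 3) := by
  unfold e
  rw [if_neg (by decide), if_neg (by decide), if_neg (by decide), if_neg (by decide), if_pos rfl]

lemma e_gen {M : Finset ℕ} (hM : M ∉ spec) (h3 : 3 ≤ M.card) :
    (e M).1 ∈ M ∧ (e M).2 ∈ M ∧ (e M).1 < (e M).2 ∧ ∃ c ∈ M, (e M).2 < c := by
  classical
  simp only [spec, mem_insert, mem_singleton, not_or] at hM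
  obtain ⟨h1, h2, h4, h5, h6⟩ := hM
  have hex : ∃ p : ℕ × ℕ, p.1 ∈ M ∧ p.2 ∈ M ∧ p.1 < p.2 ∧ ∃ c ∈ M, p.2 < c := by
    have n1 : M.Nonempty := card_pos.mp (by omega)
    have n2 : (M.erase (M.min' n1)).Nonempty := by
      rw [← card_pos, card_erase_of_mem (min'_mem _ _)]; omega
    have hb := min'_mem _ n2
    have n3 : ((M.erase (M.min' n1)).erase ((M.erase (M.min' n1)).min' n2)).Nonempty := by
      rw [← card_pos, card_erase_of_mem hb, card_erase_of_mem (min'_mem _ _)]; omega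
    obtain ⟨c, hc⟩ := n3
    refine ⟨(M.min' n1, (M.erase (M.min' n1)).min' n2), min'_mem _ n1, mem_of_mem_erase hb, ?_,
      c, mem_of_mem_erase (mem_of_mem_erase hc), ?_⟩
    · exact lt_of_le_of_ne (min'_le _ _ (mem_of_mem_erase hb)) (ne_of_mem_erase hb).symm
    · exact lt_of_le_of_ne (min'_le _ _ (mem_of_mem_erase hc)) (ne_of_mem_erase hc).symm
  unfold e
  rw [if_neg h2, if_neg h4, if_neg h5, if_neg h6, if_neg h1, dif_pos hex]
  exact hex.choose_spec

lemma e_mem {M : Finset ℕ} (h3 : 3 ≤ M.card) : (e M).1 ∈ M ∧ (e M).2 ∈ M ∧ (e M).1 < (e M).2 := by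
  by_cases hM : M ∈ spec
  · simp only [spec, mem_insert, mem_singleton] at hM
    rcases hM with rfl | rfl | rfl | rfl | rfl
    · rw [e_1234]; decide
    · rw [e_0234]; decide
    · rw [e_0134]; decide
    · rw [e_0124]; decide
    · rw [e_0123]; decide
  · have := e_gen hM h3
    exact ⟨this.1, this.2.1, this.2.2.1⟩

/-- A pair of elements of `M` whose edge inside the block of `M` is not moved. -/
def dir (M : Finset ℕ) (x y : ℕ) : Prop :=
  x ≠ y ∧ (min x y, max x y) ≠ e M ∧ mab (min x y) (max x y) ≠ M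

lemma dir_symm {M : Finset ℕ} {x y : ℕ} (h : dir M x y) : dir M y x := by
  obtain ⟨h1, h2, h3⟩ := h
  refine ⟨h1.symm, ?_, ?_⟩
  · rw [min_comm, max_comm]; exact h2
  · rw [min_comm, max_comm]; exact h3

lemma hub {M : Finset ℕ} {z : ℕ} (hz : z ∈ M) (h : ∀ x ∈ M, x ≠ z → dir M x z) :
    ∀ x ∈ M, ∀ y ∈ M, ∃ z ∈ M, (x = z ∨ dir M x z) ∧ (z = y ∨ dir M z y) := by
  intro x hx y hy
  refine ⟨z, hz, ?_, ?_⟩
  · by_cases hxz : x = z
    · exact Or.inl hxz
    · exact Or.inr (h x hx hxz)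
  · by_cases hyz : y = z
    · exact Or.inl hyz.symm
    · exact Or.inr (dir_symm (h y hy hyz))

lemma blk {M : Finset ℕ} (h3 : 3 ≤ M.card) :
    ∀ x ∈ M, ∀ y ∈ M, ∃ z ∈ M, (x = z ∨ dir M x z) ∧ (z = y ∨ dir M z y) := by
  by_cases hM : M ∈ spec
  · simp only [spec, mem_insert, mem_singleton] at hM
    rcases hM with rfl | rfl | rfl | rfl | rfl
    · refine hub (z := 4) (by decide) ?_
      unfold dir; rw [e_1234]; decide
    · refine hub (z := 0) (by decide) ?_
      unfold dir; rw [e_0234]; decide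
    · refine hub (z := 1) (by decide) ?_
      unfold dir; rw [e_0134]; decide
    · refine hub (z := 2) (by decide) ?_
      unfold dir; rw [e_0124]; decide
    · refine hub (z := 3) (by decide) ?_
      unfold dir; rw [e_0123]; decide
  · intro x hx y hy
    by_cases hxy : x = y
    · exact ⟨x, hx, Or.inl rfl, Or.inl hxy⟩
    by_cases hd : dir M x y
    · exact ⟨x, hx, Or.inl rfl, Or.inr hd⟩
    -- the pairs other than `e M` are moved for at most one pair
    have huniq : ∀ x y x' y', x ≠ y → x' ≠ y' → mab (min x y) (max x y) = M →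
        mab (min x' y') (max x' y') = M →
        min x y = min x' y' ∧ max x y = max x' y' := by
      intro x y x' y' h h' e1 e2
      have l1 : min x y < max x y := by omega
      have l2 : min x' y' < max x' y' := by omega
      exact mab_inj l1 l2 (mab_not_spec l1 (by rw [e1]; exact hM))
        (mab_not_spec l2 (by rw [e2]; exact hM)) (e1.trans e2.symm)
    have hmov : (min x y, max x y) = e M ∨ mab (min x y) (max x y) = M := by
      by_contra hcon
      push Not at hcon
      exact hd ⟨hxy, hcon⟩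
    -- another element
    obtain ⟨z, hz, hzx, hzy⟩ : ∃ z ∈ M, z ≠ x ∧ z ≠ y := by
      have : ((M.erase x).erase y).Nonempty := by
        rw [← card_pos]
        have h1 := pred_card_le_card_erase (s := M) (a := x)
        have h2 := pred_card_le_card_erase (s := M.erase x) (a := y)
        omega
      obtain ⟨z, hz⟩ := this
      exact ⟨z, mem_of_mem_erase (mem_of_mem_erase hz),
        ne_of_mem_erase (mem_of_mem_erase hz), ne_of_mem_erase hz⟩
    by_cases hzg : dir M x z ∧ dir M z y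
    · exact ⟨z, hz, Or.inr hzg.1, Or.inr hzg.2⟩
    by_cases h4 : M.card = 4
    · -- a fourth element
      obtain ⟨w, hw, hwx, hwy, hwz⟩ : ∃ w ∈ M, w ≠ x ∧ w ≠ y ∧ w ≠ z := by
        have : (((M.erase x).erase y).erase z).Nonempty := by
          rw [← card_pos]
          have h1 := pred_card_le_card_erase (s := M) (a := x)
          have h2 := pred_card_le_card_erase (s := M.erase x) (a := y)
          have h5 := pred_card_le_card_erase (s := (M.erase x).erase y) (a := z)
          omega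
        obtain ⟨w, hw⟩ := this
        exact ⟨w, mem_of_mem_erase (mem_of_mem_erase (mem_of_mem_erase hw)),
          ne_of_mem_erase (mem_of_mem_erase (mem_of_mem_erase hw)),
          ne_of_mem_erase (mem_of_mem_erase hw), ne_of_mem_erase hw⟩
      by_cases hwg : dir M x w ∧ dir M w y
      · exact ⟨w, hw, Or.inr hwg.1, Or.inr hwg.2⟩
      exfalso
      have hzm : ∃ u, (u = x ∨ u = y) ∧
          ((min u z, max u z) = e M ∨ mab (min u z) (max u z) = M) := by
        by_contra hcon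
        push Not at hcon
        exact hzg ⟨⟨hzx.symm, hcon x (Or.inl rfl)⟩, dir_symm ⟨hzy.symm, hcon y (Or.inr rfl)⟩⟩
      have hwm : ∃ u, (u = x ∨ u = y) ∧
          ((min u w, max u w) = e M ∨ mab (min u w) (max u w) = M) := by
        by_contra hcon
        push Not at hcon
        exact hwg ⟨⟨hwx.symm, hcon x (Or.inl rfl)⟩, dir_symm ⟨hwy.symm, hcon y (Or.inr rfl)⟩⟩
      obtain ⟨u, hu, hum⟩ := hzm
      obtain ⟨v, hv, hvm⟩ := hwm
      have huz : u ≠ z := by rcases hu with rfl | rfl <;> [exact hzx.symm; exact hzy.symm]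
      have hvw : v ≠ w := by rcases hv with rfl | rfl <;> [exact hwx.symm; exact hwy.symm]
      rcases hmov with a1 | a1 <;> rcases hum with a2 | a2 <;> rcases hvm with a3 | a3
      · have := a1.trans a2.symm; simp only [Prod.mk.injEq] at this; omega
      · have := a1.trans a2.symm; simp only [Prod.mk.injEq] at this; omega
      · have := a1.trans a3.symm; simp only [Prod.mk.injEq] at this; omega
      · have := huniq u z v w huz hvw a2 a3; omega
      · have := a2.trans a3.symm; simp only [Prod.mk.injEq] at this; omega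
      · have := huniq x y v w hxy hvw a1 a3; omega
      · have := huniq x y u z hxy huz a1 a2; omega
      · have := huniq x y u z hxy huz a1 a2; omega
    · -- other sizes: only `e M` is moved
      have hnm : ∀ x y, x ≠ y → mab (min x y) (max x y) ≠ M := by
        intro x y hne heq
        have := mab_card (show min x y < max x y by omega)
        rw [heq] at this
        exact h4 this
      rcases hmov with a1 | a1
      · refine ⟨z, hz, Or.inr ⟨hzx.symm, ?_, hnm _ _ hzx.symm⟩, Or.inr ⟨hzy, ?_, hnm _ _ hzy⟩⟩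
        · intro h; have := a1.trans h.symm; simp only [Prod.mk.injEq] at this; omega
        · intro h; have := a1.trans h.symm; simp only [Prod.mk.injEq] at this; omega
      · exact absurd a1 (hnm _ _ hxy)

end Sets

section Graph

variable (k D : ℕ)

/-- The sets used. -/
def gd (M : Finset ℕ) : Prop := M ⊆ range k ∧ 2 ≤ M.card ∧ M.card ≤ D + 1

instance (M : Finset ℕ) : Decidable (gd k D M) := by unfold gd; infer_instance

/-- The vertices: pairs `(a, M)` with `a ∈ M`. -/
abbrev Vt : Type := {p : ℕ × Finset ℕ // p.1 ∈ p.2 ∧ gd k D p.2}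

instance : Finite (Vt k D) := by
  have : Finite {p : ℕ × Finset ℕ // p ∈ (range k) ×ˢ (range k).powerset} := inferInstance
  refine Finite.of_injective (β := {p : ℕ × Finset ℕ // p ∈ (range k) ×ˢ (range k).powerset})
    (fun p => ⟨p.1, by
      rw [mem_product, mem_powerset]
      exact ⟨p.2.2.1 p.2.1, p.2.2.1⟩⟩) ?_
  intro p q h
  exact Subtype.ext (congrArg (fun x => x.1) h)

open Classical in
/-- The sets moved for the pair `a, b`. -/
noncomputable def F (a b : ℕ) : Finset (Finset ℕ) :=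
  (range k).powerset.filter (fun M => gd k D M ∧ a ∈ M ∧ b ∈ M ∧
    (M = {a, b} ∨ M = mab a b ∨ (3 ≤ M.card ∧ e M = (a, b))))

lemma mem_F {a b : ℕ} {M : Finset ℕ} : M ∈ F k D a b ↔ gd k D M ∧ a ∈ M ∧ b ∈ M ∧
    (M = {a, b} ∨ M = mab a b ∨ (3 ≤ M.card ∧ e M = (a, b))) := by
  unfold F
  rw [mem_filter, mem_powerset]
  constructor
  · exact fun h => h.2
  · exact fun h => ⟨h.1.1, h⟩

/-- The permutation for the pair `a, b`. -/
noncomputable def sg (a b : ℕ) : Equiv.Perm (Finset ℕ) :=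
  ((F k D a b).countable_toSet.exists_cycleOn).choose

lemma sg_cyc (a b : ℕ) : (sg k D a b).IsCycleOn (F k D a b) :=
  ((F k D a b).countable_toSet.exists_cycleOn).choose_spec.1

lemma sg_fix {a b : ℕ} {M : Finset ℕ} (h : M ∉ F k D a b) : sg k D a b M = M := by
  by_contra hne
  exact h (((F k D a b).countable_toSet.exists_cycleOn).choose_spec.2 hne)

lemma sg_pres {a b : ℕ} {M : Finset ℕ} (hM : gd k D M) (ha : a ∈ M) (hb : b ∈ M) :
    gd k D (sg k D a b M) ∧ a ∈ sg k D a b M ∧ b ∈ sg k D a b M := by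
  by_cases h : M ∈ F k D a b
  · have h2 := ((sg_cyc k D a b).apply_mem_iff (x := M)).mpr h
    rw [mem_coe, mem_F] at h2
    exact ⟨h2.1, h2.2.1, h2.2.2.1⟩
  · rw [sg_fix k D h]; exact ⟨hM, ha, hb⟩

lemma sg_symm_pres {a b : ℕ} {M : Finset ℕ} (hM : gd k D M) (ha : a ∈ M) (hb : b ∈ M) :
    gd k D ((sg k D a b).symm M) ∧ a ∈ (sg k D a b).symm M ∧ b ∈ (sg k D a b).symm M := by
  by_cases h : M ∈ F k D a b
  · have h2 : (sg k D a b).symm M ∈ F k D a b := by
      rw [← mem_coe, ← (sg_cyc k D a b).apply_mem_iff, Equiv.apply_symm_apply]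
      exact h
    rw [mem_F] at h2
    exact ⟨h2.1, h2.2.1, h2.2.2.1⟩
  · have : (sg k D a b).symm M = M := by
      rw [Equiv.symm_apply_eq, sg_fix k D h]
    rw [this]; exact ⟨hM, ha, hb⟩

/-- The graph. -/
def Gr : SimpleGraph (Vt k D) where
  Adj p q := (p.1.1 < q.1.1 ∧ q.1.1 ∈ p.1.2 ∧ sg k D p.1.1 q.1.1 p.1.2 = q.1.2) ∨
    (q.1.1 < p.1.1 ∧ p.1.1 ∈ q.1.2 ∧ sg k D q.1.1 p.1.1 q.1.2 = p.1.2)
  symm := ⟨fun p q h => h.symm⟩
  loopless := ⟨fun p h => by rcases h with h | h <;> exact lt_irrefl _ h.1⟩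

/-- Every vertex `(a, M)` has exactly one neighbour of colour `b` for every `b ∈ M`, `b ≠ a`. -/
lemma nbr_exists (p : Vt k D) {b : ℕ} (hb : b ∈ p.1.2) (hne : b ≠ p.1.1) :
    ∃ q : Vt k D, (Gr k D).Adj p q ∧ q.1.1 = b := by
  obtain ⟨⟨a, M⟩, ha, hM⟩ := p
  simp only at ha hM hb hne
  rcases lt_or_gt_of_ne hne with h | h
  · obtain ⟨h1, h2, h3⟩ := sg_symm_pres k D hM hb ha
    exact ⟨⟨(b, (sg k D b a).symm M), h2, h1⟩, Or.inr ⟨h, h3, Equiv.apply_symm_apply _ _⟩, rfl⟩
  · obtain ⟨h1, h2, h3⟩ := sg_pres k D hM ha hb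
    exact ⟨⟨(b, sg k D a b M), h3, h1⟩, Or.inl ⟨h, hb, rfl⟩, rfl⟩

lemma nbr_mem {p q : Vt k D} (h : (Gr k D).Adj p q) : q.1.1 ∈ p.1.2 ∧ q.1.1 ≠ p.1.1 := by
  obtain ⟨⟨a, M⟩, ha, hM⟩ := p
  obtain ⟨⟨b, N⟩, hb, hN⟩ := q
  rcases h with h | h
  · exact ⟨h.2.1, h.1.ne'⟩
  · simp only at h ha hb hM hN ⊢
    obtain ⟨h1, h2, h3⟩ := sg_pres k D hN hb h.2.1
    rw [h.2.2] at h2
    exact ⟨h2, h.1.ne⟩

lemma nbr_unique {p q q' : Vt k D} (h : (Gr k D).Adj p q) (h' : (Gr k D).Adj p q')
    (hc : q.1.1 = q'.1.1) : q = q' := by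
  apply Subtype.ext
  refine Prod.ext hc ?_
  rcases h with h | h <;> rcases h' with h' | h'
  · rw [← h.2.2, ← h'.2.2, hc]
  · omega
  · omega
  · have := h.2.2.trans h'.2.2.symm
    rw [hc] at this
    exact (sg k D q'.1.1 p.1.1).injective this

lemma colours (p : Vt k D) : {i | ∃ q, (Gr k D).Adj p q ∧ q.1.1 = i} = (p.1.2.erase p.1.1 : Set ℕ) := by
  ext i
  simp only [Set.mem_ofPred_eq, coe_erase, Set.mem_sdiff, mem_coe, Set.mem_singleton_iff]
  constructor
  · rintro ⟨q, hq, rfl⟩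
    exact nbr_mem k D hq
  · rintro ⟨h1, h2⟩
    exact nbr_exists k D p h1 h2

lemma degree (p : Vt k D) : ((Gr k D).neighborSet p).ncard = p.1.2.card - 1 := by
  have h1 : ((fun q : Vt k D => q.1.1) '' (Gr k D).neighborSet p) =
      (p.1.2.erase p.1.1 : Set ℕ) := by
    rw [← colours]; rfl
  have h2 : Set.InjOn (fun q : Vt k D => q.1.1) ((Gr k D).neighborSet p) := by
    intro q hq q' hq' h
    exact nbr_unique k D hq hq' h
  rw [← h2.ncard_image, h1, Set.ncard_coe_finset, card_erase_of_mem p.2.1]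

end Graph

section Conn

variable {k D : ℕ}

lemma dir_adj {M : Finset ℕ} (hM : gd k D M) (h3 : 3 ≤ M.card) {x y : ℕ} (hx : x ∈ M)
    (hy : y ∈ M) (h : dir M x y) : (Gr k D).Adj ⟨(x, M), hx, hM⟩ ⟨(y, M), hy, hM⟩ := by
  have key : ∀ x y, x < y → dir M x y → sg k D x y M = M := by
    intro x y hxy h
    apply sg_fix
    rw [mem_F]
    rintro ⟨-, -, -, h1⟩
    obtain ⟨-, h4, h5⟩ := h
    rw [min_eq_left hxy.le, max_eq_right hxy.le] at h4 h5
    rcases h1 with h1 | h1 | h1
    · rw [h1, card_pair hxy.ne] at h3; omega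
    · exact h5 h1.symm
    · exact h4 h1.2.symm
  rcases lt_or_gt_of_ne h.1 with h1 | h1
  · exact Or.inl ⟨h1, hy, key x y h1 h⟩
  · exact Or.inr ⟨h1, hx, key y x h1 (dir_symm h)⟩

lemma blk_reach {M : Finset ℕ} (hM : gd k D M) (h3 : 3 ≤ M.card) {x y : ℕ} (hx : x ∈ M)
    (hy : y ∈ M) : (Gr k D).Reachable ⟨(x, M), hx, hM⟩ ⟨(y, M), hy, hM⟩ := by
  obtain ⟨z, hz, h1, h2⟩ := blk h3 x hx y hy
  have r1 : (Gr k D).Reachable ⟨(x, M), hx, hM⟩ ⟨(z, M), hz, hM⟩ := by
    rcases h1 with rfl | h1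
    · exact SimpleGraph.Reachable.refl _
    · exact (dir_adj hM h3 hx hz h1).reachable
  have r2 : (Gr k D).Reachable ⟨(z, M), hz, hM⟩ ⟨(y, M), hy, hM⟩ := by
    rcases h2 with rfl | h2
    · exact SimpleGraph.Reachable.refl _
    · exact (dir_adj hM h3 hz hy h2).reachable
  exact r1.trans r2

lemma gd_pair (hD : 3 ≤ D) {a b : ℕ} (hab : a < b) (hb : b < k) : gd k D {a, b} := by
  refine ⟨?_, ?_, ?_⟩
  · intro x hx
    rw [mem_insert, mem_singleton] at hx
    rw [mem_range]; omega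
  · rw [card_pair hab.ne]
  · rw [card_pair hab.ne]; omega

lemma gd_mab (hk : 5 ≤ k) (hD : 3 ≤ D) {a b : ℕ} (hab : a < b) (hb : b < k) :
    gd k D (mab a b) := by
  refine ⟨?_, ?_, ?_⟩
  · intro x hx
    have := mab_le hab x hx
    rw [mem_range]; omega
  · rw [mab_card hab]; norm_num
  · rw [mab_card hab]; omega

lemma mab_mem_F (hk : 5 ≤ k) (hD : 3 ≤ D) {a b : ℕ} (hab : a < b) (hb : b < k) :
    mab a b ∈ F k D a b := by
  rw [mem_F]
  exact ⟨gd_mab hk hD hab hb, mab_left hab, mab_right hab, Or.inr (Or.inl rfl)⟩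

lemma pair_mem_F (hD : 3 ≤ D) {a b : ℕ} (hab : a < b) (hb : b < k) :
    {a, b} ∈ F k D a b := by
  rw [mem_F]
  exact ⟨gd_pair hD hab hb, by simp, by simp, Or.inl rfl⟩

lemma e_mem_F {M : Finset ℕ} (hM : gd k D M) (h3 : 3 ≤ M.card) :
    M ∈ F k D (e M).1 (e M).2 := by
  rw [mem_F]
  exact ⟨hM, (e_mem h3).1, (e_mem h3).2.1, Or.inr (Or.inr ⟨h3, rfl⟩)⟩

lemma cyc_reach (hD : 3 ≤ D) {a b : ℕ} (hab : a < b) (hb : b < k) (n : ℕ) :
    ∀ h : b ∈ (sg k D a b ^ (n + 1)) {a, b} ∧ gd k D ((sg k D a b ^ (n + 1)) {a, b}),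
    (Gr k D).Reachable ⟨(a, {a, b}), by simp, gd_pair hD hab hb⟩
      ⟨(b, (sg k D a b ^ (n + 1)) {a, b}), h⟩ := by
  induction n with
  | zero =>
    intro h
    apply SimpleGraph.Adj.reachable
    exact Or.inl ⟨hab, by simp, by simp⟩
  | succ n ih =>
    intro h
    have hF : (sg k D a b ^ (n + 1)) {a, b} ∈ F k D a b := by
      have := ((sg_cyc k D a b).1.mapsTo.perm_pow (n + 1)) (pair_mem_F (k := k) hD hab hb)
      exact this
    have hF' := hF
    rw [mem_F] at hF'
    by_cases hQ : (sg k D a b ^ (n + 1)) {a, b} = {a, b}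
    · apply SimpleGraph.Adj.reachable
      refine Or.inl ⟨hab, by simp, ?_⟩
      show sg k D a b {a, b} = (sg k D a b ^ (n + 1 + 1)) {a, b}
      rw [pow_succ', Equiv.Perm.mul_apply, hQ]
    · have h3 : 3 ≤ ((sg k D a b ^ (n + 1)) {a, b}).card := by
        rcases hF'.2.2.2 with h1 | h1 | h1
        · exact absurd h1 hQ
        · rw [h1, mab_card hab]; norm_num
        · exact h1.1
      refine ((ih ⟨hF'.2.2.1, hF'.1⟩).trans (blk_reach hF'.1 h3 hF'.2.2.1 hF'.2.1)).trans ?_
      apply SimpleGraph.Adj.reachable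
      refine Or.inl ⟨hab, hF'.2.2.1, ?_⟩
      show sg k D a b ((sg k D a b ^ (n + 1)) {a, b}) = (sg k D a b ^ (n + 1 + 1)) {a, b}
      rw [pow_succ' _ (n + 1), Equiv.Perm.mul_apply]

lemma F_reach (hD : 3 ≤ D) {a b : ℕ} (hab : a < b) (hb : b < k) {Q : Finset ℕ}
    (hQ : Q ∈ F k D a b) (h : b ∈ Q ∧ gd k D Q) :
    (Gr k D).Reachable ⟨(a, {a, b}), by simp, gd_pair hD hab hb⟩ ⟨(b, Q), h⟩ := by
  have h1 : sg k D a b {a, b} ∈ F k D a b :=
    ((sg_cyc k D a b).1.mapsTo) (pair_mem_F (k := k) hD hab hb)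
  obtain ⟨n, -, hn⟩ := (sg_cyc k D a b).exists_pow_eq h1 hQ
  have h2 : (sg k D a b ^ (n + 1)) {a, b} = Q := by
    rw [pow_succ, Equiv.Perm.mul_apply, hn]
  subst h2
  exact cyc_reach hD hab hb n h

lemma F_conn (hD : 3 ≤ D) {a b : ℕ} (hab : a < b) (hb : b < k) {Q Q' : Finset ℕ}
    (hQ : Q ∈ F k D a b) (hQ' : Q' ∈ F k D a b) (h : b ∈ Q ∧ gd k D Q)
    (h' : b ∈ Q' ∧ gd k D Q') :
    (Gr k D).Reachable ⟨(b, Q), h⟩ ⟨(b, Q'), h'⟩ :=
  (F_reach hD hab hb hQ h).symm.trans (F_reach hD hab hb hQ' h')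

lemma gd_root (hk : 5 ≤ k) (hD : 3 ≤ D) : gd k D {1, 2, 3, 4} := by
  have := gd_mab (k := k) (D := D) hk hD (show 1 < 2 by norm_num) (by omega)
  exact this

/-- The root. -/
def root (hk : 5 ≤ k) (hD : 3 ≤ D) : Vt k D := ⟨(1, {1, 2, 3, 4}), by simp, gd_root hk hD⟩

/-- All vertices of the block of `M` are connected with the root. -/
def RtB (hk : 5 ≤ k) (hD : 3 ≤ D) (M : Finset ℕ) : Prop :=
  ∀ (x : ℕ) (h : x ∈ M ∧ gd k D M), (Gr k D).Reachable ⟨(x, M), h⟩ (root hk hD)

lemma RtB_of (hk : 5 ≤ k) (hD : 3 ≤ D) {M : Finset ℕ} (h3 : 3 ≤ M.card)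
    (h : RtB hk hD (mab (e M).1 (e M).2)) : RtB hk hD M := by
  intro x hx
  obtain ⟨e1, e2, e3⟩ := e_mem h3
  have hb : (e M).2 < k := mem_range.mp (hx.2.1 e2)
  refine (blk_reach hx.2 h3 hx.1 e2).trans ?_
  refine (F_conn hD e3 hb (e_mem_F hx.2 h3) (mab_mem_F hk hD e3 hb) ⟨e2, hx.2⟩
    ⟨mab_right e3, gd_mab hk hD e3 hb⟩).trans ?_
  exact h _ _

lemma RtB_spec (hk : 5 ≤ k) (hD : 3 ≤ D) {M : Finset ℕ} (hM : M ∈ spec) : RtB hk hD M := by
  have r0 : RtB hk hD {1, 2, 3, 4} := by
    intro x hx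
    exact blk_reach hx.2 (by decide) hx.1 (by decide)
  have r1 : RtB hk hD {0, 1, 2, 3} := by
    apply RtB_of hk hD (by decide)
    rw [e_0123]
    exact r0
  have r2 : RtB hk hD {0, 1, 2, 4} := by
    apply RtB_of hk hD (by decide)
    rw [e_0124]
    exact r1
  have r3 : RtB hk hD {0, 1, 3, 4} := by
    apply RtB_of hk hD (by decide)
    rw [e_0134]
    exact r2
  have r4 : RtB hk hD {0, 2, 3, 4} := by
    apply RtB_of hk hD (by decide)
    rw [e_0234]
    exact r3
  simp only [spec, mem_insert, mem_singleton] at hM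
  rcases hM with rfl | rfl | rfl | rfl | rfl
  · exact r0
  · exact r4
  · exact r3
  · exact r2
  · exact r1

lemma RtB_mab (hk : 5 ≤ k) (hD : 3 ≤ D) : ∀ b a, a < b → b < k → RtB hk hD (mab a b) := by
  intro b
  induction b using Nat.strong_induction_on with
  | _ b ih =>
    intro a hab hb
    by_cases hs : mab a b ∈ spec
    · exact RtB_spec hk hD hs
    · have hb5 := mab_not_spec hab hs
      have hc := mab_card hab
      obtain ⟨e1, e2, e3, c, hc1, hc2⟩ := e_gen hs (by omega)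
      have hcb := mab_le hab c hc1
      have hlt : (e (mab a b)).2 < b := by omega
      exact RtB_of hk hD (by omega) (ih _ hlt _ e3 (by omega))

lemma RtB_big (hk : 5 ≤ k) (hD : 3 ≤ D) {M : Finset ℕ} (hM : gd k D M) (h3 : 3 ≤ M.card) :
    RtB hk hD M := by
  obtain ⟨e1, e2, e3⟩ := e_mem h3
  exact RtB_of hk hD h3 (RtB_mab hk hD _ _ e3 (mem_range.mp (hM.1 e2)))

lemma connected (hk : 5 ≤ k) (hD : 3 ≤ D) : (Gr k D).Connected := by
  have key : ∀ p : Vt k D, (Gr k D).Reachable p (root hk hD) := by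
    rintro ⟨⟨x, M⟩, hx', hM'⟩
    have hx : x ∈ M := hx'
    have hM : gd k D M := hM'
    by_cases h3 : 3 ≤ M.card
    · exact RtB_big hk hD hM h3 x ⟨hx, hM⟩
    · have h2 : M.card = 2 := by have := hM.2.1; omega
      obtain ⟨a, b, hne, rfl⟩ := card_eq_two.mp h2
      wlog hab : a < b generalizing a b
      · have hba : b < a := by omega
        have e1 : ({a, b} : Finset ℕ) = {b, a} := pair_comm a b
        have := this b a hne.symm (by rw [← e1]; exact hx) (by rw [← e1]; exact hM)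
          (by rw [← e1]; exact hx) (by rw [← e1]; exact hM)
          (by rw [← e1]; exact h3) (by rw [← e1]; exact h2) hba
        convert this using 3
      have hb : b < k := mem_range.mp (hM.1 (by simp))
      have hr := RtB_mab hk hD b a hab hb b ⟨mab_right hab, gd_mab hk hD hab hb⟩
      rw [mem_insert, mem_singleton] at hx
      rcases hx with rfl | rfl
      · exact (F_reach hD hab hb (mab_mem_F hk hD hab hb)
          ⟨mab_right hab, gd_mab hk hD hab hb⟩).trans hr
      · exact (F_conn hD hab hb (pair_mem_F hD hab hb) (mab_mem_F hk hD hab hb) _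
          ⟨mab_right hab, gd_mab hk hD hab hb⟩).trans hr
  have : Nonempty (Vt k D) := ⟨root hk hD⟩
  exact SimpleGraph.Connected.mk (fun p q => (key p).trans (key q).symm)

end Conn

section Count

lemma card_powerset_filter (S : Finset ℕ) (D : ℕ) :
    (S.powerset.filter (fun T => 1 ≤ T.card ∧ T.card ≤ D)).card =
      ∑ j ∈ Icc 1 D, S.card.choose j := by
  rw [card_eq_sum_card_fiberwise (f := Finset.card) (t := Icc 1 D)]
  · apply sum_congr rfl
    intro j hj
    rw [← card_powersetCard]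
    congr 1
    ext T
    rw [mem_filter, mem_filter, mem_powerset, mem_powersetCard]
    rw [mem_Icc] at hj
    constructor
    · rintro ⟨⟨h1, -⟩, h2⟩; exact ⟨h1, h2⟩
    · rintro ⟨h1, h2⟩; exact ⟨⟨h1, by omega⟩, h2⟩
  · intro T hT
    rw [mem_coe, mem_filter] at hT
    rw [mem_coe, mem_Icc]
    exact hT.2

/-- The pairs `(a, S)` with `a < k`, `S` a set of colours different from `a`, `1 ≤ |S| ≤ D`. -/
def prs (k D : ℕ) : Finset (Σ _ : ℕ, Finset ℕ) :=
  (range k).sigma (fun a => ((range k).erase a).powerset.filter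
    (fun T => 1 ≤ T.card ∧ T.card ≤ D))

lemma card_prs (k D : ℕ) : (prs k D).card = B k D := by
  unfold prs B
  rw [card_sigma]
  have : ∀ a ∈ range k, (((range k).erase a).powerset.filter
      (fun T => 1 ≤ T.card ∧ T.card ≤ D)).card = ∑ j ∈ Icc 1 D, (k - 1).choose j := by
    intro a ha
    rw [card_powerset_filter, card_erase_of_mem ha, card_range]
  rw [sum_congr rfl this, sum_const, card_range, smul_eq_mul, mul_sum]

lemma card_Vt (k D : ℕ) : Nat.card (Vt k D) = B k D := by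
  rw [← card_prs, ← Fintype.card_coe, ← Nat.card_eq_fintype_card]
  apply Nat.card_congr
  exact
    { toFun := fun p => ⟨⟨p.1.1, p.1.2.erase p.1.1⟩, by
        obtain ⟨⟨a, M⟩, ha, hM⟩ := p
        simp only at ha hM
        simp only [prs, mem_sigma, mem_range, mem_filter, mem_powerset]
        refine ⟨mem_range.mp (hM.1 ha), erase_subset_erase _ hM.1, ?_⟩
        rw [card_erase_of_mem ha]
        have h1 := hM.2.1
        have h2 := hM.2.2
        omega⟩
      invFun := fun p => ⟨(p.1.1, insert p.1.1 p.1.2), by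
        obtain ⟨⟨a, S⟩, hp⟩ := p
        simp only [prs, mem_sigma, mem_range, mem_filter, mem_powerset] at hp
        obtain ⟨ha, hS, h1, h2⟩ := hp
        have hn : a ∉ S := fun h => notMem_erase a _ (hS h)
        refine ⟨mem_insert_self _ _, ?_, ?_, ?_⟩
        · intro x hx
          rw [mem_insert] at hx
          rcases hx with rfl | hx
          · exact mem_range.mpr ha
          · exact mem_of_mem_erase (hS hx)
        · rw [card_insert_of_notMem hn]; omega
        · rw [card_insert_of_notMem hn]; omega⟩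
      left_inv := by
        rintro ⟨⟨a, M⟩, ha, hM⟩
        apply Subtype.ext
        exact Prod.ext rfl (insert_erase ha)
      right_inv := by
        rintro ⟨⟨a, S⟩, hp⟩
        have hp' := hp
        simp only [prs, mem_sigma, mem_range, mem_filter, mem_powerset] at hp'
        obtain ⟨ha, hS, h1, h2⟩ := hp'
        have hn : a ∉ S := fun h => notMem_erase a _ (hS h)
        apply Subtype.ext
        show (⟨a, (insert a S).erase a⟩ : Σ _ : ℕ, Finset ℕ) = ⟨a, S⟩
        rw [erase_insert hn] }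

lemma B_lt {k k' D : ℕ} (h : k' < k) (hk : 2 ≤ k) (hD : 1 ≤ D) : B k' D < B k D := by
  unfold B
  rw [← mul_sum, ← mul_sum]
  have h1 : ∑ j ∈ Icc 1 D, (k' - 1).choose j ≤ ∑ j ∈ Icc 1 D, (k - 1).choose j :=
    sum_le_sum (fun j _ => Nat.choose_le_choose j (by omega))
  have h2 : 0 < ∑ j ∈ Icc 1 D, (k - 1).choose j := by
    apply sum_pos' (fun _ _ => Nat.zero_le _)
    exact ⟨1, by rw [mem_Icc]; omega, by rw [Nat.choose_one_right]; omega⟩
  calc k' * ∑ j ∈ Icc 1 D, (k' - 1).choose j ≤ k' * ∑ j ∈ Icc 1 D, (k - 1).choose j :=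
        Nat.mul_le_mul_left _ h1
    _ < k * ∑ j ∈ Icc 1 D, (k - 1).choose j := Nat.mul_lt_mul_of_pos_right h h2

/-- The known upper bound for the order. -/
lemma card_le_B {V : Type} [Finite V] (G : SimpleGraph V) {k D : ℕ} (c : V → Fin k)
    (hc : IsNL G c) (hpos : ∀ v, ∃ u, G.Adj v u) (hdeg : ∀ v, (G.neighborSet v).ncard ≤ D) :
    Nat.card V ≤ B k D := by
  classical
  have := Fintype.ofFinite V
  rw [← card_prs, ← Fintype.card_coe, ← Nat.card_eq_fintype_card (α := ↥(prs k D))]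
  have hS : ∀ v, ((nbrColours G c v).toFinset.image Fin.val).card ≤ D := by
    intro v
    refine card_image_le.trans ?_
    rw [← Set.ncard_eq_toFinset_card']
    have : nbrColours G c v = c '' (G.neighborSet v) := rfl
    rw [this]
    exact (Set.ncard_image_le (Set.toFinite _)).trans (hdeg v)
  apply Nat.card_le_card_of_injective (fun v : V => (⟨⟨(c v).val,
    (nbrColours G c v).toFinset.image Fin.val⟩, by
      simp only [prs, mem_sigma, mem_range, mem_filter, mem_powerset]
      refine ⟨(c v).2, ?_, ?_, hS v⟩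
      · intro x hx
        rw [mem_image] at hx
        obtain ⟨i, hi, rfl⟩ := hx
        rw [Set.mem_toFinset] at hi
        obtain ⟨u, hu, rfl⟩ := hi
        rw [mem_erase, mem_range]
        exact ⟨fun h => hc.1 v u hu (Fin.ext h.symm), (c u).2⟩
      · obtain ⟨u, hu⟩ := hpos v
        exact card_pos.mpr ⟨(c u).val, mem_image_of_mem _ (by
          rw [Set.mem_toFinset]; exact ⟨u, hu, rfl⟩)⟩⟩ : ↥(prs k D)))
  intro u v huv
  by_contra hne
  have h1 := congrArg Subtype.val huv
  simp only [Sigma.mk.injEq] at h1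
  have h2 := eq_of_heq h1.2
  have h3 := image_injective Fin.val_injective h2
  rw [Set.toFinset_inj] at h3
  exact hc.2.2 u v hne (Fin.ext h1.1) h3

end Count

/-- The bound is attained for all pairs `(k, Δ)` with `k ≥ 5` and `3 ≤ Δ ≤ k - 2`. -/
theorem result : ∀ k D : ℕ, 5 ≤ k → 3 ≤ D → D ≤ k - 2 →
    ∃ (V : Type) (_ : Finite V) (G : SimpleGraph V), G.Connected ∧ chiNL G = k ∧
      ((∀ v, (G.neighborSet v).ncard ≤ D) ∧ ∃ v, (G.neighborSet v).ncard = D) ∧
      Nat.card V = B k D := by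
  intro k D hk hD hDk
  have hpos : ∀ v : Vt k D, ∃ u, (Gr k D).Adj v u := by
    rintro ⟨⟨a, M⟩, ha, hM⟩
    have : (M.erase a).Nonempty := by
      have h2 : 2 ≤ M.card := hM.2.1
      have ha' : a ∈ M := ha
      rw [← card_pos, card_erase_of_mem ha']
      omega
    obtain ⟨b, hb⟩ := this
    obtain ⟨q, hq, -⟩ := nbr_exists k D ⟨(a, M), ha, hM⟩ (mem_of_mem_erase hb) (ne_of_mem_erase hb)
    exact ⟨q, hq⟩
  have hdeg : ∀ v : Vt k D, ((Gr k D).neighborSet v).ncard ≤ D := by
    intro v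
    rw [degree]
    have := v.2.2.2.2
    omega
  have hmem : ∃ c : Vt k D → Fin k, IsNL (Gr k D) c := by
    have hlt : ∀ v : Vt k D, v.1.1 < k := fun v => mem_range.mp (v.2.2.1 v.2.1)
    refine ⟨fun v => ⟨v.1.1, hlt v⟩, ?_, ?_, ?_⟩
    · intro u v h heq
      exact (nbr_mem k D h).2 (congrArg Fin.val heq).symm
    · intro i
      obtain ⟨j, hj, hij⟩ : ∃ j < k, i.val ≠ j := by
        by_cases h : i.val = 0
        · exact ⟨1, by omega, by omega⟩
        · exact ⟨0, by omega, h⟩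
      refine ⟨⟨(i.val, {i.val, j}), by simp, ?_, ?_, ?_⟩, rfl⟩
      · intro x hx
        rw [mem_insert, mem_singleton] at hx
        rw [mem_range]
        have := i.2
        omega
      · rw [card_pair hij]
      · rw [card_pair hij]; omega
    · intro u v hne heq hcol
      have e1 : u.1.1 = v.1.1 := congrArg Fin.val heq
      have key : ∀ w : Vt k D, ∀ x, x ∈ w.1.2.erase w.1.1 ↔ ∃ h : x < k,
          (⟨x, h⟩ : Fin k) ∈ nbrColours (Gr k D) (fun v : Vt k D => (⟨v.1.1, hlt v⟩ : Fin k)) w := by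
        intro w x
        have h1 := colours k D w
        rw [← mem_coe, ← h1]
        constructor
        · rintro ⟨q, hq, rfl⟩
          exact ⟨hlt q, q, hq, rfl⟩
        · rintro ⟨h, q, hq, hqx⟩
          exact ⟨q, hq, congrArg Fin.val hqx⟩
      have e2 : u.1.2.erase u.1.1 = v.1.2.erase v.1.1 := by
        ext x
        rw [key u x, key v x, hcol]
      apply hne
      apply Subtype.ext
      refine Prod.ext e1 ?_
      rw [← insert_erase u.2.1, ← insert_erase v.2.1, e2, e1]
  refine ⟨Vt k D, inferInstance, Gr k D, connected hk hD, ?_, ⟨hdeg, ?_⟩, card_Vt k D⟩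
  · apply le_antisymm
    · exact Nat.sInf_le hmem
    · apply le_csInf ⟨k, hmem⟩
      rintro k' ⟨c, hc⟩
      by_contra hlt
      have h1 := card_le_B (Gr k D) c hc hpos hdeg
      rw [card_Vt] at h1
      have h2 := B_lt (k := k) (k' := k') (D := D) (by omega) (by omega) (by omega)
      omega
  · refine ⟨⟨(0, range (D + 1)), by simp, ?_, ?_, ?_⟩, ?_⟩
    · intro x hx; rw [mem_range] at hx ⊢; omega
    · rw [card_range]; omega
    · rw [card_range]
    · rw [degree, card_range]; omega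

end Pool.Agent.Results.MP_3eb9f6_co.AllPairs
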